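import Mathlib
import Pool.Agent.Helper135.MS5
set_option autoImplicit false
namespace Pool.Agent.Helper423.MSD
open Finset Pool.Agent.Helper135.MS

variable {V : Type*} [Fintype V] [DecidableEq V] (G : SimpleGraph V) [DecidableRel G.Adj]

/-- units of demand -/
def TT (v : V) : Finset (V × V × V) :=
  (Wf G v ×ˢ Wf G v ×ˢ G.neighborFinset v).filter (fun t => G.Adj t.1 t.2.1)

/-- unused nonadjacent pairs -/
def UU (v : V) (K : Finset (V × V)) : Finset (V × V) :=
  (G.neighborFinset v ×ˢ Wf G v).filter (fun p => ¬ G.Adj p.2 p.1 ∧ p ∉ K)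

def cert2 (a b w y : V) : Prop :=
  G.Adj a w ∧ ¬ G.Adj b w ∧ G.Adj b y ∧ G.Adj a y ∧ ∀ x, G.Adj b x → G.Adj x w → x = a

def NoII (v w w' : V) : Prop :=
  ∀ c, c ∈ Wf G v → ¬ (G.Adj w' c ∧ ¬ G.Adj w c ∧ w ≠ c ∧ ∀ x, G.Adj w x → G.Adj x c → x = w')

def cert3 (v w w' y y' : V) : Prop :=
  G.Adj w' y ∧ (∀ x, G.Adj y x → G.Adj x w → x = w') ∧ G.Adj w y' ∧ G.Adj w' y' ∧ NoII G v w w'

/-- the charging relation, t = unit, p = (y, w) -/
def Rel (v : V) (K : Finset (V × V)) (z : V × V → V) (t : V × V × V) (p : V × V) : Prop :=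
  (t.1 = p.2 ∧ t.2.2 = p.1) ∨
  (t.2.1 = p.2 ∧ t.2.2 = p.1 ∧ (p.1, t.1) ∈ K) ∨
  (t.2.1 = p.2 ∧ (t.2.2, t.1) ∈ K ∧ z (t.2.2, t.1) = p.1) ∨
  (t.2.1 = p.2 ∧ t.2.2 = p.1 ∧ G.Adj p.1 t.1) ∨
  (t.2.2 = p.1 ∧ cert2 G t.1 t.2.1 p.2 p.1) ∨
  (t.2.2 = p.1 ∧ cert2 G t.2.1 t.1 p.2 p.1) ∨
  (t.1 = p.2 ∧ cert3 G v p.2 t.2.1 p.1 t.2.2) ∨
  (t.2.1 = p.2 ∧ cert3 G v p.2 t.1 p.1 t.2.2)

variable {G}

lemma mem_TT {v : V} {t : V × V × V} : t ∈ TT G v ↔
    t.1 ∈ Wf G v ∧ t.2.1 ∈ Wf G v ∧ G.Adj v t.2.2 ∧ G.Adj t.1 t.2.1 := by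
  simp only [TT, mem_filter, mem_product, SimpleGraph.mem_neighborFinset]
  tauto

lemma mem_UU {v : V} {K : Finset (V × V)} {p : V × V} : p ∈ UU G v K ↔
    G.Adj v p.1 ∧ p.2 ∈ Wf G v ∧ ¬ G.Adj p.2 p.1 ∧ p ∉ K := by
  simp only [UU, mem_filter, mem_product, SimpleGraph.mem_neighborFinset]
  tauto

lemma not_adj_of_W {v w : V} (hw : w ∈ Wf G v) : ¬ G.Adj v w := by
  simp only [Wf, mem_filter] at hw
  exact hw.2.2

lemma notK_of_common {v : V} {K : Finset (V × V)} {z : V × V → V} (hg : Good G v K z) {y w a : V}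
    (ha : a ∈ Wf G v) (h1 : G.Adj a y) (h2 : G.Adj a w) : (y, w) ∉ K := by
  intro hK
  have h7 := hg.h7 y w hK a h1.symm h2
  have h4 := hg.h4 y w hK
  rw [← h7] at h4
  exact not_adj_of_W ha h4

lemma exists_rel {v : V} {K : Finset (V × V)} {z : V × V → V} (hg : Good G v K z) (hc : CritC G)
    (t : V × V × V) (ht : t ∈ TT G v) : ∃ p ∈ UU G v K, Rel G v K z t p := by
  obtain ⟨a, b, y⟩ := t
  rw [mem_TT] at ht
  obtain ⟨ha, hb, hy, hab⟩ := ht
  simp only at ha hb hy hab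
  by_cases hya : G.Adj a y
  · by_cases hyb : G.Adj b y
    · by_cases hII : NoII G v a b ∧ NoII G v b a
      · obtain ⟨hn1, hn2⟩ := hII
        rcases hc a b hab with h | ⟨w0, h | h⟩
        · exact absurd ⟨hya, hyb.symm⟩ (h y)
        · obtain ⟨h1, h2, h3, h4⟩ := h
          have hw0 : G.Adj v w0 := by
            by_contra hcon
            refine hn1 w0 ?_ ⟨h1, h2, h3, h4⟩
            simp only [Wf, mem_filter, mem_univ, true_and]
            refine ⟨?_, hcon⟩
            rintro rfl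
            exact not_adj_of_W hb h1.symm
          refine ⟨(w0, a), mem_UU.2 ⟨hw0, ha, h2, notK_of_common hg hb h1 hab.symm⟩, ?_⟩
          right; right; right; right; right; right; left
          exact ⟨rfl, h1, fun x hx1 hx2 => h4 x hx2.symm hx1.symm, hya, hyb, hn1⟩
        · obtain ⟨h1, h2, h3, h4⟩ := h
          have hw0 : G.Adj v w0 := by
            by_contra hcon
            refine hn2 w0 ?_ ⟨h1, h2, h3, h4⟩
            simp only [Wf, mem_filter, mem_univ, true_and]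
            refine ⟨?_, hcon⟩
            rintro rfl
            exact not_adj_of_W ha h1.symm
          refine ⟨(w0, b), mem_UU.2 ⟨hw0, hb, h2, notK_of_common hg ha h1 hab⟩, ?_⟩
          right; right; right; right; right; right; right
          exact ⟨rfl, h1, fun x hx1 hx2 => h4 x hx2.symm hx1.symm, hyb, hya, hn2⟩
      · have : ¬ NoII G v a b ∨ ¬ NoII G v b a := by tauto
        have hyW : ∀ x, x ∈ Wf G v → y ≠ x := by
          rintro x hx rfl
          exact not_adj_of_W hx hy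
        rcases this with h | h
        · unfold NoII at h
          push Not at h
          obtain ⟨c, hcW, h1, h2, h3, h4⟩ := h
          refine ⟨(y, c), mem_UU.2 ⟨hy, hcW, ?_, notK_of_common hg hb hyb h1⟩, ?_⟩
          · intro hcy
            exact hyW b hb (h4 y hya hcy.symm)
          · right; right; right; right; right; left
            exact ⟨rfl, h1, h2, hya, hyb, h4⟩
        · unfold NoII at h
          push Not at h
          obtain ⟨c, hcW, h1, h2, h3, h4⟩ := h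
          refine ⟨(y, c), mem_UU.2 ⟨hy, hcW, ?_, notK_of_common hg ha hya h1⟩, ?_⟩
          · intro hcy
            exact hyW a ha (h4 y hyb hcy.symm)
          · right; right; right; right; left
            exact ⟨rfl, h1, h2, hyb, hya, h4⟩
    · refine ⟨(y, b), mem_UU.2 ⟨hy, hb, hyb, notK_of_common hg ha hya hab⟩, ?_⟩
      right; right; right; left
      exact ⟨rfl, rfl, hya.symm⟩
  · by_cases hK : (y, a) ∈ K
    · have hyb : ¬ G.Adj b y := K_not_adj hg hK hb hab
      by_cases hK2 : (y, b) ∈ K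
      · have z4 := hg.h4 y a hK
        have z5 := hg.h5 y a hK
        have z6 := hg.h6 y a hK
        refine ⟨(z (y, a), b), mem_UU.2 ⟨z4, hb, ?_, notK_of_common hg ha z6.symm hab⟩, ?_⟩
        · intro hzb
          have e := hg.h7 y b hK2 _ z5 hzb.symm
          have e2 := hg.h8 y a b hK hK2 e
          subst e2
          exact G.loopless.irrefl _ hab
        · right; right; left
          exact ⟨rfl, hK, rfl⟩
      · refine ⟨(y, b), mem_UU.2 ⟨hy, hb, hyb, hK2⟩, ?_⟩
        right; left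
        exact ⟨rfl, rfl, hK⟩
    · refine ⟨(y, a), mem_UU.2 ⟨hy, ha, hya, hK⟩, ?_⟩
      left
      exact ⟨rfl, rfl⟩

end Pool.Agent.Helper423.MSD
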