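import Mathlib
import Pool.Agent.Helper423.MSD
set_option autoImplicit false
namespace Pool.Agent.Helper423.MSD
open Finset Pool.Agent.Helper135.MS

variable {V : Type*} [Fintype V] [DecidableEq V] {G : SimpleGraph V} [DecidableRel G.Adj]

open Classical in
lemma s1_le (v w y : V) :
    #((TT G v).filter (fun t => t.1 = w ∧ t.2.2 = y)) ≤ df G v w := by
  unfold df
  apply Finset.card_le_card_of_injOn (fun t => t.2.1)
  · intro t ht
    rw [mem_coe, mem_filter, mem_TT] at ht
    rw [mem_coe, mem_filter]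
    obtain ⟨⟨h1, h2, h3, h4⟩, rfl, rfl⟩ := ht
    exact ⟨h2, h4⟩
  · rintro ⟨a, b, c⟩ ht ⟨a', b', c'⟩ ht' h
    rw [mem_coe, mem_filter] at ht ht'
    simp only at h
    obtain ⟨_, rfl, rfl⟩ := ht
    obtain ⟨_, rfl, rfl⟩ := ht'
    rw [h]

open Classical in
lemma s3_le (v w y : V) :
    #((TT G v).filter (fun t => t.2.1 = w ∧ t.2.2 = y ∧ G.Adj y t.1))
      ≤ #((Wf G v).filter (fun x => G.Adj w x ∧ G.Adj y x)) := by
  apply Finset.card_le_card_of_injOn (fun t => t.1)
  · intro t ht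
    rw [mem_coe, mem_filter, mem_TT] at ht
    rw [mem_coe, mem_filter]
    obtain ⟨⟨h1, h2, h3, h4⟩, rfl, rfl, h5⟩ := ht
    exact ⟨h1, h4.symm, h5⟩
  · rintro ⟨a, b, c⟩ ht ⟨a', b', c'⟩ ht' h
    rw [mem_coe, mem_filter] at ht ht'
    simp only at h
    obtain ⟨_, rfl, rfl, _⟩ := ht
    obtain ⟨_, rfl, rfl, _⟩ := ht'
    rw [h]

open Classical in
lemma s4a_le (v w y : V) :
    #((TT G v).filter (fun t => t.2.2 = y ∧ cert2 G t.1 t.2.1 w y))
      ≤ #((Wf G v).filter (fun x => ¬ G.Adj w x ∧ G.Adj y x)) := by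
  apply Finset.card_le_card_of_injOn (fun t => t.2.1)
  · intro t ht
    rw [mem_coe, mem_filter, mem_TT] at ht
    rw [mem_coe, mem_filter]
    obtain ⟨⟨h1, h2, h3, h4⟩, rfl, h5, h6, h7, _, h8⟩ := ht
    exact ⟨h2, fun h => h6 h.symm, h7.symm⟩
  · rintro ⟨a, b, c⟩ ht ⟨a', b', c'⟩ ht' h
    rw [mem_coe, mem_filter, mem_TT] at ht ht'
    simp only at h
    obtain ⟨⟨h1, h2, h3, h4⟩, rfl, h5, h6, h7, _, h8⟩ := ht
    obtain ⟨⟨h1', h2', h3', h4'⟩, rfl, h5', h6', h7', _, h8'⟩ := ht'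
    subst h
    rw [h8 a' h4'.symm h5']

open Classical in
lemma s4b_le (v w y : V) :
    #((TT G v).filter (fun t => t.2.2 = y ∧ cert2 G t.2.1 t.1 w y))
      ≤ #((Wf G v).filter (fun x => ¬ G.Adj w x ∧ G.Adj y x)) := by
  apply Finset.card_le_card_of_injOn (fun t => t.1)
  · intro t ht
    rw [mem_coe, mem_filter, mem_TT] at ht
    rw [mem_coe, mem_filter]
    obtain ⟨⟨h1, h2, h3, h4⟩, rfl, h5, h6, h7, _, h8⟩ := ht
    exact ⟨h1, fun h => h6 h.symm, h7.symm⟩
  · rintro ⟨a, b, c⟩ ht ⟨a', b', c'⟩ ht' h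
    rw [mem_coe, mem_filter, mem_TT] at ht ht'
    simp only at h
    obtain ⟨⟨h1, h2, h3, h4⟩, rfl, h5, h6, h7, _, h8⟩ := ht
    obtain ⟨⟨h1', h2', h3', h4'⟩, rfl, h5', h6', h7', _, h8'⟩ := ht'
    subst h
    rw [h8 b' h4' h5']

open Classical in
lemma s2_le {v : V} {K : Finset (V × V)} {z : V × V → V} (hg : Good G v K z) (w y : V) :
    #((TT G v).filter (fun t => t.2.1 = w ∧ t.2.2 = y ∧ (y, t.1) ∈ K))
      + #((TT G v).filter (fun t => t.2.1 = w ∧ (t.2.2, t.1) ∈ K ∧ z (t.2.2, t.1) = y))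
      ≤ #((G.neighborFinset v).filter (fun x => G.Adj y x)) := by
  set S := (TT G v).filter (fun t => t.2.1 = w ∧ t.2.2 = y ∧ (y, t.1) ∈ K) with hS
  set S' := (TT G v).filter (fun t => t.2.1 = w ∧ (t.2.2, t.1) ∈ K ∧ z (t.2.2, t.1) = y) with hS'
  have c1 : #(S.image (fun t => z (y, t.1))) = #S := by
    apply card_image_of_injOn
    rintro ⟨a, b, c⟩ ht ⟨a', b', c'⟩ ht' h
    rw [mem_coe, hS, mem_filter] at ht ht'
    simp only at h ht ht'
    obtain ⟨_, rfl, rfl, hk⟩ := ht
    obtain ⟨_, rfl, rfl, hk'⟩ := ht'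
    rw [hg.h8 _ _ _ hk hk' h]
  have c2 : #(S'.image (fun t => t.2.2)) = #S' := by
    apply card_image_of_injOn
    rintro ⟨a, b, c⟩ ht ⟨a', b', c'⟩ ht' h
    rw [mem_coe, hS', mem_filter] at ht ht'
    simp only at h ht ht'
    obtain ⟨_, rfl, hk, hz⟩ := ht
    obtain ⟨_, rfl, hk', hz'⟩ := ht'
    subst h
    rw [hg.h8 _ _ _ hk hk' (by rw [hz, hz'])]
  rw [← c1, ← c2, ← card_union_of_disjoint]
  · apply card_le_card
    intro x hx
    simp only [mem_union, mem_image, hS, hS', mem_filter, SimpleGraph.mem_neighborFinset] at hx ⊢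
    rcases hx with ⟨t, ⟨_, _, _, hk⟩, rfl⟩ | ⟨t, ⟨_, _, hk, hz⟩, rfl⟩
    · exact ⟨hg.h4 _ _ hk, hg.h5 _ _ hk⟩
    · refine ⟨hg.h1 _ _ hk, ?_⟩
      rw [← hz]
      exact (hg.h5 _ _ hk).symm
  · rw [Finset.disjoint_left]
    intro x hx hx'
    simp only [mem_image, hS, hS', mem_filter] at hx hx'
    obtain ⟨t, ⟨_, _, _, hk⟩, hx1⟩ := hx
    obtain ⟨t', ⟨_, _, hk', hz'⟩, hx2⟩ := hx'
    subst hx2
    have h9 := hg.h9 _ _ _ _ hk hk' (by rw [hx1, hz']; exact Sym2.eq_swap)
    have h5 := hg.h5 _ _ hk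
    rw [hx1, ← h9.1] at h5
    exact G.loopless.irrefl _ h5

open Classical in
lemma s5a_le (v w y : V) :
    #((TT G v).filter (fun t => t.1 = w ∧ cert3 G v w t.2.1 y t.2.2)) ≤ #(Af G v w) := by
  apply Finset.card_le_card_of_injOn (fun t => t.2.2)
  · intro t ht
    rw [mem_coe, mem_filter, mem_TT] at ht
    rw [mem_coe, Af, mem_filter, SimpleGraph.mem_neighborFinset]
    obtain ⟨⟨h1, h2, h3, h4⟩, rfl, h5, h6, h7, h8⟩ := ht
    exact ⟨h3, h7⟩
  · rintro ⟨a, b, c⟩ ht ⟨a', b', c'⟩ ht' h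
    rw [mem_coe, mem_filter, mem_TT] at ht ht'
    simp only at h
    obtain ⟨⟨h1, h2, h3, h4⟩, rfl, h5, h6, h7, h8⟩ := ht
    obtain ⟨⟨h1', h2', h3', h4'⟩, rfl, h5', h6', h7', h8'⟩ := ht'
    subst h
    rw [h6 b' h5'.symm h4'.symm]

open Classical in
lemma s5b_le (v w y : V) :
    #((TT G v).filter (fun t => t.2.1 = w ∧ cert3 G v w t.1 y t.2.2)) ≤ #(Af G v w) := by
  apply Finset.card_le_card_of_injOn (fun t => t.2.2)
  · intro t ht
    rw [mem_coe, mem_filter, mem_TT] at ht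
    rw [mem_coe, Af, mem_filter, SimpleGraph.mem_neighborFinset]
    obtain ⟨⟨h1, h2, h3, h4⟩, rfl, h5, h6, h7, h8⟩ := ht
    exact ⟨h3, h7⟩
  · rintro ⟨a, b, c⟩ ht ⟨a', b', c'⟩ ht' h
    rw [mem_coe, mem_filter, mem_TT] at ht ht'
    simp only at h
    obtain ⟨⟨h1, h2, h3, h4⟩, rfl, h5, h6, h7, h8⟩ := ht
    obtain ⟨⟨h1', h2', h3', h4'⟩, rfl, h5', h6', h7', h8'⟩ := ht'
    subst h
    rw [h6 a' h5'.symm h4']

/-- degree facts -/
lemma deg_y {v y : V} (hmax : ∀ x, G.degree x ≤ G.degree v) (hy : G.Adj v y) (w : V) :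
    #((G.neighborFinset v).filter (fun x => G.Adj y x))
      + (#((Wf G v).filter (fun x => G.Adj w x ∧ G.Adj y x))
        + #((Wf G v).filter (fun x => ¬ G.Adj w x ∧ G.Adj y x))) + 1 ≤ G.degree v := by
  have e1 : #((Wf G v).filter (fun x => G.Adj w x ∧ G.Adj y x))
        + #((Wf G v).filter (fun x => ¬ G.Adj w x ∧ G.Adj y x)) = #((Wf G v).filter (fun x => G.Adj y x)) := by
    rw [← card_union_of_disjoint]
    · congr 1
      ext x
      simp only [mem_union, mem_filter]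
      tauto
    · rw [Finset.disjoint_left]
      intro x h1 h2
      simp only [mem_filter] at h1 h2
      exact h2.2.1 h1.2.1
  rw [e1]
  refine le_trans ?_ (hmax y)
  rw [← SimpleGraph.card_neighborFinset_eq_degree, ← card_union_of_disjoint]
  · rw [← card_insert_of_notMem (a := v)]
    · apply card_le_card
      intro x hx
      simp only [mem_insert, mem_union, mem_filter, SimpleGraph.mem_neighborFinset] at hx ⊢
      rcases hx with rfl | ⟨_, h⟩ | ⟨_, h⟩
      · exact hy.symm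
      · exact h
      · exact h
    · simp only [mem_union, mem_filter, SimpleGraph.mem_neighborFinset, Wf, not_or, not_and]
      exact ⟨fun h => absurd h (G.loopless.irrefl _), fun h => absurd rfl h.2.1⟩
  · rw [Finset.disjoint_left]
    intro x h1 h2
    simp only [mem_filter, SimpleGraph.mem_neighborFinset] at h1 h2
    exact not_adj_of_W h2.1 h1.1

lemma deg_w {v w y : V} (hw : w ∈ Wf G v) (hwy : ¬ G.Adj w y) :
    df G v w + #((Wf G v).filter (fun x => ¬ G.Adj w x ∧ G.Adj y x)) + 1 ≤ #(Wf G v) := by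
  unfold df
  rw [← card_union_of_disjoint]
  · rw [← card_insert_of_notMem (a := w)]
    · apply card_le_card
      intro x hx
      simp only [mem_insert, mem_union, mem_filter] at hx
      rcases hx with rfl | ⟨h, _⟩ | ⟨h, _⟩
      · exact hw
      · exact h
      · exact h
    · simp only [mem_union, mem_filter, not_or, not_and]
      exact ⟨fun _ h => G.loopless.irrefl _ h, fun _ _ h => hwy h.symm⟩
  · rw [Finset.disjoint_left]
    intro x h1 h2
    simp only [mem_filter] at h1 h2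
    exact h2.2.1 h1.2

lemma card_W' (v : V) : #(Wf G v) + G.degree v + 1 = Fintype.card V := by
  rw [← SimpleGraph.card_neighborFinset_eq_degree, ← card_union_of_disjoint]
  · rw [← card_insert_of_notMem (a := v)]
    · rw [← Finset.card_univ]
      congr 1
      ext x
      simp only [mem_insert, mem_union, Wf, mem_filter, mem_univ, true_and, SimpleGraph.mem_neighborFinset, iff_true]
      tauto
    · simp only [mem_union, Wf, mem_filter, mem_univ, true_and, SimpleGraph.mem_neighborFinset, not_or]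
      exact ⟨fun h => h.1 rfl, G.loopless.irrefl _⟩
  · rw [Finset.disjoint_left]
    intro x h1 h2
    rw [SimpleGraph.mem_neighborFinset] at h2
    exact not_adj_of_W h1 h2

open Classical in
lemma load {v : V} {K : Finset (V × V)} {z : V × V → V} (hg : Good G v K z)
    (hmax : ∀ x, G.degree x ≤ G.degree v) (hn : Fintype.card V ≤ 2 * G.degree v)
    (p : V × V) (hp : p ∈ UU G v K) :
    #((TT G v).filter (fun t => Rel G v K z t p)) ≤ 2 * G.degree v := by
  obtain ⟨y, w⟩ := p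
  rw [mem_UU] at hp
  obtain ⟨hy, hw, hwy, hpK⟩ := hp
  simp only at hy hw hwy
  have a1 := s1_le (G := G) v w y
  have a2 := s2_le hg w y
  have a3 := s3_le (G := G) v w y
  have a4 := s4a_le (G := G) v w y
  have a5 := s4b_le (G := G) v w y
  have a6 := s5a_le (G := G) v w y
  have a7 := s5b_le (G := G) v w y
  have b1 := deg_y hmax hy w
  have b2 := deg_w hw hwy
  have b3 := card_W' (G := G) v
  have b4 := degree_far hw
  have b5 := hmax w
  set S1 := (TT G v).filter (fun t => t.1 = w ∧ t.2.2 = y) with hS1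
  set S2 := (TT G v).filter (fun t => t.2.1 = w ∧ t.2.2 = y ∧ (y, t.1) ∈ K) with hS2
  set S3 := (TT G v).filter (fun t => t.2.1 = w ∧ (t.2.2, t.1) ∈ K ∧ z (t.2.2, t.1) = y) with hS3
  set S4 := (TT G v).filter (fun t => t.2.1 = w ∧ t.2.2 = y ∧ G.Adj y t.1) with hS4
  set S5 := (TT G v).filter (fun t => t.2.2 = y ∧ cert2 G t.1 t.2.1 w y) with hS5
  set S6 := (TT G v).filter (fun t => t.2.2 = y ∧ cert2 G t.2.1 t.1 w y) with hS6
  set S7 := (TT G v).filter (fun t => t.1 = w ∧ cert3 G v w t.2.1 y t.2.2) with hS7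
  set S8 := (TT G v).filter (fun t => t.2.1 = w ∧ cert3 G v w t.1 y t.2.2) with hS8
  have hsub : (TT G v).filter (fun t => Rel G v K z t (y, w)) ⊆
      S1 ∪ (S2 ∪ (S3 ∪ (S4 ∪ (S5 ∪ (S6 ∪ (S7 ∪ S8)))))) := by
    intro t ht
    rw [mem_filter] at ht
    obtain ⟨h0, h⟩ := ht
    rcases h with h | h | h | h | h | h | h | h
    · exact mem_union_left _ (mem_filter.2 ⟨h0, h⟩)
    · exact mem_union_right _ (mem_union_left _ (mem_filter.2 ⟨h0, h⟩))
    · exact mem_union_right _ (mem_union_right _ (mem_union_left _ (mem_filter.2 ⟨h0, h⟩)))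
    · exact mem_union_right _ (mem_union_right _ (mem_union_right _ (mem_union_left _ (mem_filter.2 ⟨h0, h⟩))))
    · exact mem_union_right _ (mem_union_right _ (mem_union_right _ (mem_union_right _ (mem_union_left _ (mem_filter.2 ⟨h0, h⟩)))))
    · exact mem_union_right _ (mem_union_right _ (mem_union_right _ (mem_union_right _ (mem_union_right _ (mem_union_left _ (mem_filter.2 ⟨h0, h⟩))))))
    · exact mem_union_right _ (mem_union_right _ (mem_union_right _ (mem_union_right _ (mem_union_right _ (mem_union_right _ (mem_union_left _ (mem_filter.2 ⟨h0, h⟩)))))))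
    · exact mem_union_right _ (mem_union_right _ (mem_union_right _ (mem_union_right _ (mem_union_right _ (mem_union_right _ (mem_union_right _ (mem_filter.2 ⟨h0, h⟩)))))))
  have hcard : #((TT G v).filter (fun t => Rel G v K z t (y, w))) ≤
      #S1 + (#S2 + (#S3 + (#S4 + (#S5 + (#S6 + (#S7 + #S8)))))) := by
    refine (card_le_card hsub).trans ?_
    refine (card_union_le _ _).trans (Nat.add_le_add_left ?_ _)
    refine (card_union_le _ _).trans (Nat.add_le_add_left ?_ _)
    refine (card_union_le _ _).trans (Nat.add_le_add_left ?_ _)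
    refine (card_union_le _ _).trans (Nat.add_le_add_left ?_ _)
    refine (card_union_le _ _).trans (Nat.add_le_add_left ?_ _)
    refine (card_union_le _ _).trans (Nat.add_le_add_left ?_ _)
    exact card_union_le _ _
  by_cases hE : S7 = ∅ ∧ S8 = ∅
  · rw [hE.1, hE.2, card_empty] at hcard
    omega
  · have hex : ∃ w', w' ∈ Wf G v ∧ G.Adj w w' ∧ G.Adj w' y ∧ (∀ x, G.Adj y x → G.Adj x w → x = w') ∧ NoII G v w w' := by
      have : S7.Nonempty ∨ S8.Nonempty := by
        by_contra hcon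
        push Not at hcon
        exact hE ⟨by simpa using hcon.1, by simpa using hcon.2⟩
      rcases this with ⟨t, ht⟩ | ⟨t, ht⟩
      · rw [hS7, mem_filter, mem_TT] at ht
        obtain ⟨⟨h1, h2, h3, h4⟩, rfl, h5, h6, h7, h8, h9⟩ := ht
        exact ⟨t.2.1, h2, h4, h5, h6, h9⟩
      · rw [hS8, mem_filter, mem_TT] at ht
        obtain ⟨⟨h1, h2, h3, h4⟩, rfl, h5, h6, h7, h8, h9⟩ := ht
        exact ⟨t.1, h1, h4.symm, h5, h6, h9⟩
    obtain ⟨w', hw', hww', hw'y, huniq, hno⟩ := hex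
    have e5 : S5 = ∅ := by
      rw [Finset.eq_empty_iff_forall_notMem]
      intro t ht
      rw [hS5, mem_filter, mem_TT] at ht
      obtain ⟨⟨h1, h2, h3, h4⟩, h5, h6, h7, h8, h9, h10⟩ := ht
      have e : t.1 = w' := huniq _ h9.symm h6
      refine hno t.2.1 h2 ⟨e ▸ h4, fun h => h7 h.symm, ?_, ?_⟩
      · intro h; rw [h] at hwy; exact hwy h8
      · intro x hx1 hx2; rw [← e]; exact h10 x hx2.symm hx1.symm
    have e6 : S6 = ∅ := by
      rw [Finset.eq_empty_iff_forall_notMem]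
      intro t ht
      rw [hS6, mem_filter, mem_TT] at ht
      obtain ⟨⟨h1, h2, h3, h4⟩, h5, h6, h7, h8, h9, h10⟩ := ht
      have e : t.2.1 = w' := huniq _ h9.symm h6
      refine hno t.1 h1 ⟨e ▸ h4.symm, fun h => h7 h.symm, ?_, ?_⟩
      · intro h; rw [h] at hwy; exact hwy h8
      · intro x hx1 hx2; rw [← e]; exact h10 x hx2.symm hx1.symm
    have e4 : #S4 ≤ 1 := by
      rw [Finset.card_le_one]
      rintro ⟨a, b, c⟩ h ⟨a', b', c'⟩ h'
      simp only [hS4, mem_filter, mem_TT] at h h'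
      obtain ⟨⟨h1, h2, h3, h4⟩, rfl, rfl, h5⟩ := h
      obtain ⟨⟨h1', h2', h3', h4'⟩, rfl, rfl, h5'⟩ := h'
      rw [huniq a h5 h4, huniq a' h5' h4']
    have e7 : #((G.neighborFinset v).filter (fun x => G.Adj y x)) + #(Af G v w) + 1 ≤ G.degree v := by
      rw [← SimpleGraph.card_neighborFinset_eq_degree, ← card_union_of_disjoint]
      · rw [← card_insert_of_notMem (a := y)]
        · apply card_le_card
          intro x hx
          simp only [mem_insert, mem_union, mem_filter, Af, SimpleGraph.mem_neighborFinset] at hx ⊢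
          rcases hx with rfl | ⟨h, _⟩ | ⟨h, _⟩
          · exact hy
          · exact h
          · exact h
        · simp only [mem_union, mem_filter, Af, not_or, not_and]
          exact ⟨fun _ => G.loopless.irrefl _, fun _ => hwy⟩
      · rw [Finset.disjoint_left]
        intro x h1 h2
        simp only [mem_filter, Af, SimpleGraph.mem_neighborFinset] at h1 h2
        have := huniq x h1.2 h2.2.symm
        subst this
        exact not_adj_of_W hw' h1.1
    rw [e5, e6, card_empty] at hcard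
    omega

lemma card_TT (v : V) : #(TT G v) = (∑ w ∈ Wf G v, df G v w) * G.degree v := by
  have : TT G v = ((Wf G v).sigma (fun w => (Wf G v).filter (fun x => G.Adj w x) ×ˢ G.neighborFinset v)).map
      ⟨fun s => (s.1, s.2.1, s.2.2), by
        rintro ⟨a, b⟩ ⟨a', b'⟩ h
        simp only [Prod.mk.injEq] at h
        obtain ⟨h1, h2, h3⟩ := h
        subst h1
        congr 1
        exact Prod.ext h2 h3⟩ := by
    ext ⟨a, b, c⟩
    simp only [mem_TT, mem_map, mem_sigma, mem_product, mem_filter, SimpleGraph.mem_neighborFinset,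
      Function.Embedding.coeFn_mk, Prod.mk.injEq]
    constructor
    · rintro ⟨h1, h2, h3, h4⟩
      exact ⟨⟨a, (b, c)⟩, ⟨h1, ⟨h2, h4⟩, h3⟩, by first | rfl | exact ⟨rfl, rfl, rfl⟩⟩
    · rintro ⟨⟨a', b', c'⟩, ⟨h1, ⟨h2, h4⟩, h3⟩, h⟩
      have hh : a' = a ∧ b' = b ∧ c' = c := by first | exact h | simpa using h
      obtain ⟨e1, e2, e3⟩ := hh
      subst e1 e2 e3
      exact ⟨h1, h2, h3, h4⟩
  rw [this, card_map, card_sigma, Finset.sum_mul]
  apply Finset.sum_congr rfl
  intro w _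
  rw [card_product, SimpleGraph.card_neighborFinset_eq_degree]
  rfl

lemma card_UU (v : V) (K : Finset (V × V)) : #(UU G v K) = ∑ w ∈ Wf G v, #(Uf G v K w) := by
  rw [Finset.card_eq_sum_card_fiberwise (f := Prod.snd) (t := Wf G v)]
  · apply Finset.sum_congr rfl
    intro w hw
    apply Finset.card_bij (fun p _ => p.1)
    · rintro ⟨y, w'⟩ hp
      rw [mem_filter, mem_UU] at hp
      obtain ⟨⟨h1, h2, h3, h4⟩, rfl⟩ := hp
      simp only [Uf, Hf, mem_filter, SimpleGraph.mem_neighborFinset]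
      exact ⟨⟨h1, h3⟩, h4⟩
    · rintro ⟨y, w'⟩ hp ⟨y2, w2⟩ hp2 h
      rw [mem_filter] at hp hp2
      simp only at h hp hp2
      rw [h, hp.2, hp2.2]
    · intro y hy
      simp only [Uf, Hf, mem_filter, SimpleGraph.mem_neighborFinset] at hy
      exact ⟨(y, w), by rw [mem_filter, mem_UU]; exact ⟨⟨hy.1.1, hw, hy.1.2, hy.2⟩, rfl⟩, rfl⟩
  · rintro ⟨y, w⟩ hp
    rw [mem_coe, mem_UU] at hp
    exact hp.2.1

/-- DISCHARGING BOUND -/
theorem discharge {v : V} {K : Finset (V × V)} {z : V × V → V} (hg : Good G v K z) (hc : CritC G)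
    (hmax : ∀ x, G.degree x ≤ G.degree v) (hn : Fintype.card V ≤ 2 * G.degree v) :
    ∑ w ∈ Wf G v, df G v w ≤ 2 * ∑ w ∈ Wf G v, #(Uf G v K w) := by
  classical
  have hex : ∀ t ∈ TT G v, ∃ p ∈ UU G v K, Rel G v K z t p := fun t ht => exists_rel hg hc t ht
  haveI : Nonempty V := ⟨v⟩
  choose! f hf using hex
  have h1 : #(TT G v) ≤ (2 * G.degree v) * #(UU G v K) := by
    apply Finset.card_le_mul_card_image_of_maps_to (f := f)
    · intro t ht
      exact (hf t ht).1
    · intro p hp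
      refine le_trans (card_le_card ?_) (load hg hmax hn p hp)
      intro t ht
      rw [mem_filter] at ht ⊢
      refine ⟨ht.1, ?_⟩
      rw [← ht.2]
      exact (hf t ht.1).2
  rw [card_TT, card_UU] at h1
  rcases Nat.eq_zero_or_pos (G.degree v) with h0 | h0
  · have : Fintype.card V = 0 := by omega
    have h2 := Fintype.card_pos_iff.2 ⟨v⟩
    omega
  · have : (∑ w ∈ Wf G v, df G v w) * G.degree v ≤ (2 * ∑ w ∈ Wf G v, #(Uf G v K w)) * G.degree v := by
      calc _ ≤ _ := h1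
        _ = _ := by ring
    exact Nat.le_of_mul_le_mul_right this h0

end Pool.Agent.Helper423.MSD
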